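import Pool.Agent.FS.ExcessOrder.Main

open Pool.Agent.Lib.MP_40d282_co

/-- For `7/8 ≤ μ < 1`, every countable `μ`-arrangement of disks in the plane has density relative
to the union at most `π / (π - 8 (1 - μ) √(2 (1 - μ)))`. -/
theorem Pool.Agent.Variants.MP_40d282_co.ExcessOrder.result :
    ∀ μ : ℝ, 7 / 8 ≤ μ → μ < 1 →
      ∀ (ι : Type) [Countable ι] (x : ι → Plane) (ρ : ι → ℝ), IsArrangement μ x ρ →
        unionDensity x ρ
          ≤ ENNReal.ofReal (Real.pi / (Real.pi - 8 * ((1 - μ) * Real.sqrt (2 * (1 - μ))))) :=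
  fun _ h1 h2 _ _ _ _ hA => Pool.Agent.FS.ExcessOrder.main hA h1 h2
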